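import Pool.Agent.Lib_helper20.SD.Defs
import Pool.Agent.Lib_helper62.PToda.Bound

/-!
# Covers by cylinder intersections
-/

namespace Pool.Agent.Lib_helper20.SD

open Finset
open Pool.Agent.Lib_helper62.PToda

/-- Cover by cylinder intersections. -/
theorem cover {J : Type} {L d S w : ℕ} (mem : Inp J L d → Fin S → Fin (2 ^ w))
    (miss : Fin S → Fin (d + 1))
    (hmiss : ∀ c z z', AgreeOff (miss c) z z' → mem z c = mem z' c) (A : Alg S w) :
    ∀ T, A.Within T → ∃ (ι : Type) (_ : Fintype ι) (φ : ι → Fin (d + 1) → Inp J L d → Bool),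
      Fintype.card ι ≤ (2 ^ w) ^ T ∧
      (∀ i t z z', AgreeOff t z z' → φ i t z = φ i t z') ∧
      ∀ z, A.Accepts (mem z) ↔ ∃ i, ∀ t, φ i t z = true := by
  classical
  induction A with
  | answer b =>
    intro T _
    refine ⟨Unit, inferInstance, fun _ _ _ => b, ?_, fun _ _ _ _ _ => rfl, ?_⟩
    · rw [Fintype.card_unit]
      exact Nat.one_le_pow _ _ (by positivity)
    · intro z
      simp [Alg.Accepts]
  | guess next ih =>
    intro T hT
    cases T with
    | zero => exact absurd hT (by simp [Alg.Within])
    | succ T =>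
      simp only [Alg.Within] at hT
      choose ι hf φ hc hi ha using fun x => ih x T (hT x)
      refine ⟨Σ x, ι x, inferInstance, fun p t z => φ p.1 p.2 t z, ?_, ?_, ?_⟩
      · rw [Fintype.card_sigma, pow_succ, mul_comm]
        refine (Finset.sum_le_sum fun x _ => hc x).trans ?_
        simp
      · rintro ⟨x, i⟩ t z z' h
        exact hi x i t z z' h
      · intro z
        simp only [Alg.Accepts, ha, Sigma.exists]
  | probe c next ih =>
    intro T hT
    cases T with
    | zero => exact absurd hT (by simp [Alg.Within])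
    | succ T =>
      simp only [Alg.Within] at hT
      choose ι hf φ hc hi ha using fun x => ih x T (hT x)
      refine ⟨Σ x, ι x, inferInstance, fun p t z =>
        φ p.1 p.2 t z && (if t = miss c then decide (mem z c = p.1) else true), ?_, ?_, ?_⟩
      · rw [Fintype.card_sigma, pow_succ, mul_comm]
        refine (Finset.sum_le_sum fun x _ => hc x).trans ?_
        simp
      · rintro ⟨x, i⟩ t z z' h
        simp only
        rw [hi x i t z z' h]
        by_cases ht : t = miss c
        · subst ht
          rw [hmiss c z z' h]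
        · simp [ht]
      · intro z
        simp only [Alg.Accepts, ha, Sigma.exists, Bool.and_eq_true]
        constructor
        · rintro ⟨i, hi⟩
          refine ⟨mem z c, i, fun t => ⟨hi t, ?_⟩⟩
          split_ifs <;> simp
        · rintro ⟨x, i, hx⟩
          have h1 := (hx (miss c)).2
          rw [if_pos rfl, decide_eq_true_eq] at h1
          subst h1
          exact ⟨i, fun t => (hx t).1⟩

/-- Cylinder intersections that cover exactly the disjoint inputs are numerous. -/
theorem many {J : Type} [Fintype J] [DecidableEq J] {d : ℕ} {ι : Type} [Fintype ι]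
    (φ : ι → Fin (d + 1) → Inp J (ptr d) d → Bool)
    (hi : ∀ i t z z', AgreeOff t z z' → φ i t z = φ i t z')
    (hno : ∀ z, (∃ i, ∀ t, φ i t z = true) ↔ ∀ j, z.2 j (fun i => z.1 i j) = false) :
    2 ^ Fintype.card J ≤ Fintype.card ι := by
  classical
  have hL := ptr_pos d
  have hne : Nonempty (Fin (ptr d)) := ⟨⟨0, hL⟩⟩
  -- each cylinder intersection is small
  have small : ∀ i, av (fun w : Inp J (ptr d) d => ∏ t, (if φ i t w = true then (1:ℝ) else 0))
      ≤ (1 / 4) ^ Fintype.card J := by
    intro i
    let X0 : J → (Fin d → Fin (ptr d)) → Bool := fun _ _ => false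
    have hd := disc_bound (J := J) (ptr d) hL d (J → (Fin d → Fin (ptr d)) → Bool) Finset.univ
      (fun X => X) (fun E hE _ => av_char E hE)
      (fun p => if φ i 0 (p, X0) = true then (1:ℝ) else 0)
      (fun t p X => if φ i t.succ (p, X) = true then (1:ℝ) else 0)
      (fun p => by split_ifs <;> simp) (fun t p X => by split_ifs <;> simp)
      (fun t p p' X h => by
        have : φ i t.succ (p, X) = φ i t.succ (p', X) := by
          apply hi
          refine ⟨fun _ => rfl, fun k hk => ?_⟩
          exact h k (fun h => hk (by rw [h]))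
        simp only [this])
    have heq : (fun w : Inp J (ptr d) d => ∏ t, (if φ i t w = true then (1:ℝ) else 0))
        = (fun z : (Fin d → J → Fin (ptr d)) × (J → (Fin d → Fin (ptr d)) → Bool) =>
        (∏ j ∈ Finset.univ, sgn (z.2 j (fun i => z.1 i j))) *
          (if φ i 0 (z.1, X0) = true then (1:ℝ) else 0) *
          ∏ t : Fin d, (if φ i t.succ (z.1, z.2) = true then (1:ℝ) else 0)) := by
      funext w
      have h0 : φ i 0 (w.1, X0) = φ i 0 w := by
        apply hi
        exact ⟨fun h => absurd rfl h, fun k _ => rfl⟩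
      rw [Fin.prod_univ_succ, h0]
      by_cases hall : ∀ t, φ i t w = true
      · have hz := (hno w).1 ⟨i, hall⟩
        have : ∏ j ∈ Finset.univ, sgn (w.2 j (fun i => w.1 i j)) = 1 := by
          apply Finset.prod_eq_one
          intro j _
          rw [hz j]
          simp [sgn]
        rw [this, one_mul]
      · push Not at hall
        obtain ⟨t, ht⟩ := hall
        have hzero : (if φ i 0 w = true then (1:ℝ) else 0) *
            ∏ t : Fin d, (if φ i t.succ w = true then (1:ℝ) else 0) = 0 := by
          rcases Fin.eq_zero_or_eq_succ t with rfl | ⟨t', rfl⟩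
          · simp [ht]
          · rw [Finset.prod_eq_zero (Finset.mem_univ t') (by simp [ht]), mul_zero]
        rw [hzero, mul_assoc, hzero, mul_zero]
    rw [heq]
    set a := av (fun z : (Fin d → J → Fin (ptr d)) × (J → (Fin d → Fin (ptr d)) → Bool) =>
        (∏ j ∈ Finset.univ, sgn (z.2 j (fun i => z.1 i j))) *
          (if φ i 0 (z.1, X0) = true then (1:ℝ) else 0) *
          ∏ t : Fin d, (if φ i t.succ (z.1, z.2) = true then (1:ℝ) else 0)) with ha'
    have h1 : |a| ^ (2 ^ d) ≤ (((1:ℝ) / 4) ^ Fintype.card J) ^ (2 ^ d) := by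
      refine hd.trans ?_
      rw [← pow_mul, mul_comm (Fintype.card J), pow_mul, Finset.card_univ]
      refine pow_le_pow_left₀ (by positivity) ?_ _
      unfold ptr
      push_cast
      rw [div_le_iff₀ (by positivity), one_div, inv_pow]
      rw [mul_comm ((d:ℝ)+1), ← mul_assoc, inv_mul_cancel₀ (by positivity), one_mul]
      linarith
    have h2 : |a| ≤ ((1:ℝ) / 4) ^ Fintype.card J :=
      (pow_le_pow_iff_left₀ (abs_nonneg _) (by positivity) (by positivity)).1 h1
    exact (le_abs_self _).trans h2
  -- the disjoint inputs are covered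
  have hcov : av (fun w : Inp J (ptr d) d =>
      ∏ j, (if w.2 j (fun i => w.1 i j) = true then (0:ℝ) else 1))
      ≤ av (fun w : Inp J (ptr d) d => ∑ i, ∏ t, (if φ i t w = true then (1:ℝ) else 0)) := by
    apply av_mono
    intro w
    have hnn : ∀ i, 0 ≤ ∏ t, (if φ i t w = true then (1:ℝ) else 0) := by
      intro i
      apply Finset.prod_nonneg
      intro t _
      split_ifs <;> norm_num
    by_cases hall : ∀ j, w.2 j (fun i => w.1 i j) = false
    · obtain ⟨i, hiw⟩ := (hno w).2 hall
      have h1 : ∏ j, (if w.2 j (fun i => w.1 i j) = true then (0:ℝ) else 1) = 1 := by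
        apply Finset.prod_eq_one
        intro j _
        simp [hall j]
      have h2 : ∏ t, (if φ i t w = true then (1:ℝ) else 0) = 1 := by
        apply Finset.prod_eq_one
        intro t _
        simp [hiw t]
      have h3 := Finset.single_le_sum (fun i _ => hnn i) (Finset.mem_univ i)
      rw [h2] at h3
      rw [h1]
      exact h3
    · push Not at hall
      obtain ⟨j, hj⟩ := hall
      simp only [ne_eq, Bool.not_eq_false] at hj
      rw [Finset.prod_eq_zero (Finset.mem_univ j) (by simp [hj])]
      exact Finset.sum_nonneg fun i _ => hnn i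
  rw [av_no (ptr d) d hL, av_sum] at hcov
  have h3 : ((1:ℝ) / 2) ^ Fintype.card J ≤ (Fintype.card ι : ℝ) * (1 / 4) ^ Fintype.card J := by
    refine hcov.trans ?_
    refine (Finset.sum_le_sum fun i _ => small i).trans ?_
    rw [Finset.sum_const, Finset.card_univ, nsmul_eq_mul]
  have h4 : (2:ℝ) ^ Fintype.card J ≤ (Fintype.card ι : ℝ) := by
    have e : ((1:ℝ) / 2) ^ Fintype.card J = 2 ^ Fintype.card J * (1 / 4) ^ Fintype.card J := by
      rw [← mul_pow]; norm_num
    rw [e] at h3
    exact le_of_mul_le_mul_right h3 (by positivity)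
  exact_mod_cast h4

end Pool.Agent.Lib_helper20.SD
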