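import Mathlib

/-!
# Data structures for `k`-set disjointness: cells that depend on few sets
-/

namespace Pool.Agent.Lib_helper20.SD

/-- Nondeterministic query algorithms for a memory with `S` cells of `w` bits: a step guesses a word
or reads a cell; what is done next depends on all words guessed and read before. -/
inductive Alg (S w : ℕ) : Type
  | answer (b : Bool) : Alg S w
  | guess (next : Fin (2 ^ w) → Alg S w) : Alg S w
  | probe (c : Fin S) (next : Fin (2 ^ w) → Alg S w) : Alg S w

/-- Some sequence of guesses leads to the answer `true` on the memory `M`. -/
def Alg.Accepts {S w : ℕ} (M : Fin S → Fin (2 ^ w)) : Alg S w → Prop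
  | Alg.answer b => b = true
  | Alg.guess next => ∃ x, (next x).Accepts M
  | Alg.probe c next => (next (M c)).Accepts M

/-- The algorithm makes at most `T` steps (guesses and probes). -/
def Alg.Within {S w : ℕ} : Alg S w → ℕ → Prop
  | Alg.answer _, _ => True
  | Alg.guess _, 0 => False
  | Alg.guess next, T + 1 => ∀ x, (next x).Within T
  | Alg.probe _ _, 0 => False
  | Alg.probe _ next, T + 1 => ∀ x, (next x).Within T

/-- Families of `m` subsets of a universe with `u` elements. -/
abbrev Fam (m u : ℕ) : Type := Fin m → Finset (Fin u)

/-- All sets of the family have `a` elements. -/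
def Uniform {m u : ℕ} (a : ℕ) (F : Fam m u) : Prop := ∀ i, (F i).card = a

/-- A data structure for `k`-set disjointness on families of `m` sets with `a` elements each of a
universe with `u` elements: `S` cells of `w` bits; the content of the cell `c` is a function of
the sets `F i`, `i ∈ dep c`; the query that names `k` different sets is answered by an algorithm
with at most `T` steps, which accepts if and only if no element belongs to all `k` sets. -/
structure Scheme (k m a u S w T : ℕ) where
  mem : Fam m u → Fin S → Fin (2 ^ w)
  dep : Fin S → Finset (Fin m)
  mem_eq : ∀ F G : Fam m u, Uniform a F → Uniform a G → ∀ c, (∀ i ∈ dep c, F i = G i) →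
    mem F c = mem G c
  alg : (Fin k → Fin m) → Alg S w
  within : ∀ q, (alg q).Within T
  correct : ∀ F : Fam m u, Uniform a F → ∀ q : Fin k → Fin m, Function.Injective q →
    ((alg q).Accepts (mem F) ↔ ∀ x, ¬ ∀ i, x ∈ F (q i))

end Pool.Agent.Lib_helper20.SD
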