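import Pool.Agent.Lib_helper20.SD.Cover

/-!
# Every tuple of sets needs a cell that depends on all of them
-/

namespace Pool.Agent.Lib_helper20.SD

open Finset
open Pool.Agent.Lib_helper62.PToda

section hard

variable {J : Type} [Fintype J] [DecidableEq J] {L d a : ℕ}

/-- The universe of the hard instances: triples and dummy elements of the players. -/
abbrev U0 (J : Type) (L d a : ℕ) : Type := (J × (Fin d → Fin L) × Bool) ⊕ (Fin (d + 1) × Fin a)

/-- The relevant elements of the set of player `t`. -/
def Rel (z : Inp J L d) (t : Fin (d + 1)) (j : J) (v : Fin d → Fin L) (b : Bool) : Prop :=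
  Fin.cases (motive := fun _ => Prop) (b = z.2 j v) (fun i => b = true ∧ v i = z.1 i j) t

open Classical in
/-- The relevant part of the set of player `t`. -/
noncomputable def core (z : Inp J L d) (t : Fin (d + 1)) : Finset (J × (Fin d → Fin L) × Bool) :=
  univ.filter fun x => Rel z t x.1 x.2.1 x.2.2

theorem core_card (z : Inp J L d) (t : Fin (d + 1)) :
    (core z t).card ≤ Fintype.card J * L ^ d := by
  classical
  have h1 : (core z t).card ≤ (univ : Finset (J × (Fin d → Fin L))).card := by
    refine Finset.card_le_card_of_injOn (fun x => (x.1, x.2.1)) (fun x _ => mem_univ _) ?_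
    rintro ⟨j, v, b⟩ hx ⟨j', v', b'⟩ hx' h
    simp only [Prod.mk.injEq] at h
    obtain ⟨rfl, rfl⟩ := h
    simp only [core, Finset.coe_filter, mem_univ, true_and, Set.mem_setOf_eq] at hx hx'
    have : b = b' := by
      rcases Fin.eq_zero_or_eq_succ t with rfl | ⟨i, rfl⟩
      · simp only [Rel, Fin.cases_zero] at hx hx'
        rw [hx, hx']
      · simp only [Rel, Fin.cases_succ] at hx hx'
        rw [hx.1, hx'.1]
    rw [this]
  refine h1.trans (le_of_eq ?_)
  rw [Finset.card_univ, Fintype.card_prod, Fintype.card_fun, Fintype.card_fin, Fintype.card_fin]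

theorem core_congr {z z' : Inp J L d} {s t : Fin (d + 1)} (h : AgreeOff s z z') (ht : t ≠ s) :
    core z t = core z' t := by
  classical
  unfold core
  refine Finset.filter_congr fun x _ => ?_
  rcases Fin.eq_zero_or_eq_succ t with rfl | ⟨i, rfl⟩
  · simp only [Rel, Fin.cases_zero]
    rw [h.1 (Ne.symm ht)]
  · simp only [Rel, Fin.cases_succ]
    rw [h.2 i ht]

/-- The set of player `t`. -/
noncomputable def pset (a : ℕ) (z : Inp J L d) (t : Fin (d + 1)) : Finset (U0 J L d a) :=
  (core z t).disjSum ((univ.filter fun x : Fin a => x.val < a - (core z t).card).map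
    ⟨fun x => (t, x), fun x y h => (Prod.mk.inj h).2⟩)

theorem pset_card (z : Inp J L d) (t : Fin (d + 1)) (ha : Fintype.card J * L ^ d ≤ a) :
    (pset a z t).card = a := by
  have h1 := (core_card z t).trans ha
  rw [pset, Finset.card_disjSum, Finset.card_map]
  have h2 : (univ.filter fun x : Fin a => x.val < a - (core z t).card).card =
      a - (core z t).card := by
    rw [Fin.card_filter_val_lt]
    omega
  rw [h2]
  omega

theorem pset_congr {z z' : Inp J L d} {s t : Fin (d + 1)} (h : AgreeOff s z z') (ht : t ≠ s) :
    pset a z t = pset a z' t := by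
  unfold pset
  rw [core_congr h ht]

theorem inter (hd : 0 < d) (z : Inp J L d) :
    (∀ y : U0 J L d a, ¬ ∀ t, y ∈ pset a z t) ↔ ∀ j, z.2 j (fun i => z.1 i j) = false := by
  classical
  constructor
  · intro h j
    by_contra hj
    rw [Bool.not_eq_false] at hj
    refine h (Sum.inl (j, fun i => z.1 i j, true)) fun t => ?_
    rw [pset, Finset.inl_mem_disjSum, core, Finset.mem_filter]
    refine ⟨mem_univ _, ?_⟩
    rcases Fin.eq_zero_or_eq_succ t with rfl | ⟨i, rfl⟩
    · simp only [Rel, Fin.cases_zero]
      exact hj.symm
    · simp only [Rel, Fin.cases_succ, true_and]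
  · rintro h (⟨j, v, b⟩ | ⟨t0, x⟩) hy
    · have h1 : ∀ t, Rel z t j v b := by
        intro t
        have := hy t
        rw [pset, Finset.inl_mem_disjSum, core, Finset.mem_filter] at this
        exact this.2
      have h2 : ∀ i : Fin d, b = true ∧ v i = z.1 i j := fun i => h1 i.succ
      have h3 : b = z.2 j v := h1 0
      have h4 : v = fun i => z.1 i j := funext fun i => (h2 i).2
      rw [h4, h j, (h2 ⟨0, hd⟩).1] at h3
      exact Bool.noConfusion h3
    · have h1 : ∀ t, t0 = t := by
        intro t
        have := hy t
        rw [pset, Finset.inr_mem_disjSum, Finset.mem_map] at this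
        obtain ⟨y, -, hy⟩ := this
        exact (Prod.mk.inj hy).1.symm
      have h2 : (0 : Fin (d + 1)) = (⟨0, hd⟩ : Fin d).succ := (h1 0).symm.trans (h1 _)
      exact absurd h2.symm (Fin.succ_ne_zero _)

end hard

/-- Every tuple of different sets needs a cell that depends on all of them. -/
theorem full_cell {d m a u S w T : ℕ} (hd : 0 < d) (D : Scheme (d + 1) m a u S w T)
    (ha : (w * T + 1) * ptr d ^ d ≤ a)
    (hu : (w * T + 1) * ptr d ^ d * 2 + (d + 1) * a ≤ u) (q : Fin (d + 1) → Fin m)
    (hq : Function.Injective q) : ∃ c, ∀ i, q i ∈ D.dep c := by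
  classical
  by_contra hcon
  push Not at hcon
  choose miss hmiss using hcon
  let J := Fin (w * T + 1)
  have hcard : Fintype.card (U0 J (ptr d) d a) ≤ Fintype.card (Fin u) := by
    rw [Fintype.card_sum, Fintype.card_prod, Fintype.card_prod, Fintype.card_prod,
      Fintype.card_fun, Fintype.card_fin, Fintype.card_fin, Fintype.card_bool, Fintype.card_fin,
      Fintype.card_fin, Fintype.card_fin, Fintype.card_fin, ← mul_assoc]
    exact hu
  obtain ⟨e⟩ := Function.Embedding.nonempty_of_card_le hcard
  have hJ : Fintype.card J * ptr d ^ d ≤ a := by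
    rw [Fintype.card_fin]
    exact ha
  -- the family of an input
  let F : Inp J (ptr d) d → Fam m u := fun z i =>
    if h : ∃ t, q t = i then (pset a z h.choose).map e
    else ((univ : Finset (Fin a)).map ⟨fun x => (0, x), fun x y h => (Prod.mk.inj h).2⟩).map
      ((Function.Embedding.inr : (Fin (d + 1) × Fin a) ↪ U0 J (ptr d) d a).trans e)
  have hF : ∀ z t, F z (q t) = (pset a z t).map e := by
    intro z t
    have h : ∃ t', q t' = q t := ⟨t, rfl⟩
    simp only [F]
    rw [dif_pos h, hq h.choose_spec]
  have hFo : ∀ z z' i, (¬ ∃ t, q t = i) → F z i = F z' i := by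
    intro z z' i h
    simp only [F]
    rw [dif_neg h, dif_neg h]
  have hU : ∀ z, Uniform a (F z) := by
    intro z i
    by_cases h : ∃ t, q t = i
    · obtain ⟨t, rfl⟩ := h
      rw [hF, Finset.card_map, pset_card z t hJ]
    · simp only [F]
      rw [dif_neg h, Finset.card_map, Finset.card_map, Finset.card_univ, Fintype.card_fin]
  have hm : ∀ c z z', AgreeOff (miss c) z z' → D.mem (F z) c = D.mem (F z') c := by
    intro c z z' h
    refine D.mem_eq _ _ (hU z) (hU z') c fun i hi => ?_
    by_cases hi' : ∃ t, q t = i
    · obtain ⟨t, rfl⟩ := hi'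
      rw [hF, hF, pset_congr h]
      rintro rfl
      exact hmiss c hi
    · exact hFo z z' i hi'
  obtain ⟨ι, _, φ, hc, hinv, hacc⟩ := cover (fun z => D.mem (F z)) miss hm (D.alg q) T (D.within q)
  have h1 := many φ hinv (fun z => by
    rw [← hacc z, D.correct (F z) (hU z) q hq, ← inter (a := a) hd z]
    constructor
    · intro h y hy
      refine h (e y) fun t => ?_
      rw [hF]
      exact Finset.mem_map_of_mem e (hy t)
    · intro h x hx
      have h0 := hx 0
      rw [hF, Finset.mem_map] at h0
      obtain ⟨y, -, rfl⟩ := h0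
      refine h y fun t => ?_
      have := hx t
      rw [hF] at this
      exact (Finset.mem_map' e).1 this)
  have h2 := h1.trans hc
  rw [Fintype.card_fin, ← pow_mul, pow_succ] at h2
  have h3 : 0 < 2 ^ (w * T) := by positivity
  omega

/-- Counting tuples. -/
theorem count {k m a u S w T : ℕ} (D : Scheme k m a u S w T)
    (h : ∀ q : Fin k → Fin m, Function.Injective q → ∃ c, ∀ i, q i ∈ D.dep c) :
    m.descFactorial k ≤ ∑ c, (D.dep c).card.descFactorial k := by
  classical
  have h1 : Fintype.card (Fin k ↪ Fin m) ≤ Fintype.card (Σ c, (Fin k ↪ D.dep c)) := by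
    choose f hf using fun q : Fin k ↪ Fin m => h q q.injective
    refine Fintype.card_le_of_injective
      (fun q => ⟨f q, ⟨fun i => ⟨q i, hf q i⟩, fun i j hij => q.injective (congrArg Subtype.val hij)⟩⟩)
      fun q q' hqq => ?_
    ext i
    have h2 : ∀ (x y : Σ c, (Fin k ↪ D.dep c)), x = y →
        ((x.2 i : D.dep x.1) : Fin m) = ((y.2 i : D.dep y.1) : Fin m) := by
      rintro x _ rfl
      rfl
    exact congrArg Fin.val (h2 _ _ hqq)
  rw [Fintype.card_sigma] at h1
  simp only [Fintype.card_embedding_eq, Fintype.card_fin, Fintype.card_coe] at h1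
  exact h1

theorem pow_le_descFactorial {k m : ℕ} (h : k ≤ m) : m ^ k ≤ k ^ k * m.descFactorial k := by
  have h1 : ∀ j, j ≤ k → m ^ j ≤ k ^ j * m.descFactorial j := by
    intro j
    induction j with
    | zero => simp
    | succ j ih =>
      intro hj
      have h2 := ih (by omega)
      have h3 : m ≤ k * (m - j) := by
        obtain ⟨r, rfl⟩ : ∃ r, k = j + 1 + r := ⟨k - (j + 1), by omega⟩
        obtain ⟨n, rfl⟩ : ∃ n, m = j + 1 + r + n := ⟨m - (j + 1 + r), by omega⟩
        have e : j + 1 + r + n - j = 1 + r + n := by omega
        rw [e]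
        nlinarith
      rw [pow_succ, pow_succ, Nat.descFactorial_succ]
      calc m ^ j * m ≤ (k ^ j * m.descFactorial j) * (k * (m - j)) := Nat.mul_le_mul h2 h3
        _ = k ^ j * k * ((m - j) * m.descFactorial j) := by ring
  exact h1 k le_rfl

/-- The scheme with one cell for every set of `k` sets. -/
theorem exists_scheme (k m a u : ℕ) : ∃ D : Scheme k m a u (m.choose k) 1 1,
    ∑ c, (D.dep c).card.descFactorial k = m.descFactorial k := by
  classical
  have hcard : Fintype.card {s : Finset (Fin m) // s.card = k} = m.choose k := by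
    rw [Fintype.card_subtype]
    have : (univ.filter fun s : Finset (Fin m) => s.card = k) = powersetCard k univ := by
      ext s
      simp [Finset.mem_powersetCard]
    rw [this, Finset.card_powersetCard, Finset.card_univ, Fintype.card_fin]
  let e := Fintype.equivFinOfCardEq hcard
  let D : Scheme k m a u (m.choose k) 1 1 :=
    { mem := fun F c => if ∃ x, ∀ i ∈ (e.symm c).1, x ∈ F i then 1 else 0
      dep := fun c => (e.symm c).1
      mem_eq := by
        intro F G _ _ c h
        have h1 : (∃ x, ∀ i ∈ (e.symm c).1, x ∈ F i) ↔ ∃ x, ∀ i ∈ (e.symm c).1, x ∈ G i := by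
          refine exists_congr fun x => forall₂_congr fun i hi => ?_
          rw [h i hi]
        simp only [h1]
      alg := fun q => if h : Function.Injective q then
        Alg.probe (e ⟨univ.image q, by
          rw [Finset.card_image_of_injective _ h, Finset.card_univ, Fintype.card_fin]⟩)
          (fun b => Alg.answer (decide (b = 0))) else Alg.answer true
      within := by
        intro q
        split_ifs with h
        · intro x
          exact trivial
        · exact trivial
      correct := by
        intro F _ q hq
        rw [dif_pos hq]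
        simp only [Alg.Accepts, Equiv.symm_apply_apply, Finset.mem_image, mem_univ, true_and,
          forall_exists_index, forall_apply_eq_imp_iff, decide_eq_true_eq]
        constructor
        · intro h x hx
          rw [if_pos ⟨x, hx⟩] at h
          exact absurd h (by decide)
        · intro h
          rw [if_neg (by rintro ⟨x, hx⟩; exact h x hx)] }
  refine ⟨D, ?_⟩
  have h1 : ∀ c, (D.dep c).card = k := fun c => (e.symm c).2
  simp only [h1, Nat.descFactorial_self, Finset.sum_const, Finset.card_univ, Fintype.card_fin,
    smul_eq_mul]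
  rw [Nat.descFactorial_eq_factorial_mul_choose, mul_comm]

end Pool.Agent.Lib_helper20.SD
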